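import Pool.Agent.Helper7.CMTypes
import Pool.Agent.KT2.Types

/-!
Abelian varieties of ball type: the degrees and the powers of the theorem.
-/

namespace Pool.Agent.GPC

/-- The CM field `K`, `n = 2 dim A / [K : ℚ] ≥ 3`, acts as in `IsMultCen`, and every endomorphism
(tensor `ℚ`) is in `K`. Moreover `k < d` or `k > dim A - d` for `d = n` (`n` odd), `d = n / 2` (`n`
even). -/
def AbVar.IsBallComm (A : AbVar) (k : ℕ) : Prop :=
  ∃ (K : Type) (_ : Field K) (_ : NumberField K) (_ : NumberField.IsCMField K) (n : ℕ)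
    (ρ : K → A.H1 → A.H1), A.IsMultCen K n ρ ∧ 3 ≤ n ∧
      (∀ f, A.IsEnd f → ∃ x, ∀ v, f v = ρ x v) ∧
      (2 * k < (if Even n then n else 2 * n) ∨
        2 * A.g < 2 * k + (if Even n then n else 2 * n))

/-- The CM field `K`, `n = 2 dim A / [K : ℚ] ≥ 3`, acts as in `IsMultCen`, and `End(A) ⊗ ℚ` has no
anti-automorphism which is the identity on the centre. Moreover `k < d` or `k > m dim A - d` for
`d = n` (`n` odd), `d = n / 2` (`n` even), or the centre is an imaginary quadratic field `ℚ(J)`,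
`J^2 = -d'`. -/
def AbVar.IsBallNoAnti (A : AbVar) (m k : ℕ) : Prop :=
  ∃ (K : Type) (_ : Field K) (_ : NumberField K) (_ : NumberField.IsCMField K) (n : ℕ)
    (ρ : K → A.H1 → A.H1), A.IsMultCen K n ρ ∧ 3 ≤ n ∧ A.NoAnti ∧
      (2 * k < (if Even n then n else 2 * n) ∨
        2 * (m * A.g) < 2 * k + (if Even n then n else 2 * n) ∨
        ∃ (d : ℚ) (J : A.H1 → A.H1), 0 < d ∧ A.IsEnd J ∧ (∀ v, J (J v) = (-(d : ℂ)) • v) ∧
          (∀ f, A.IsEnd f → ∀ v, f (J v) = J (f v)) ∧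
          ∀ f, A.IsEnd f → (∀ h, A.IsEnd h → ∀ v, f (h v) = h (f v)) →
            ∃ a b : ℚ, ∀ v, f v = (a : ℂ) • v + (b : ℂ) • J v)

/-- `A` is simple of dimension `n ≥ 3`, and `J` is an endomorphism (tensor `ℚ`), `J^2 = -d < 0`, one
of whose eigenspaces in `F^0 H_1(A)` is a line: the signature of `ℚ(J)` is `(n - 1, 1)`. -/
def AbVar.IsPicardType (A : AbVar) (d : ℚ) (J : A.H1 → A.H1) : Prop :=
  A.IsSimple ∧ 3 ≤ A.g ∧ 0 < d ∧ A.IsEnd J ∧ (∀ v, J (J v) = (-(d : ℂ)) • v) ∧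
    ∃ z : ℂ, z ^ 2 = -(d : ℂ) ∧
      Module.finrank ℂ (Submodule.span ℂ {v : A.H1 | J v = z • v ∧ A.IsFil v}) = 1

/-- `A` is of ball type, and `m` and `k` are as follows: (a) `E = End(A) ⊗ ℚ` is a CM field, and
`m = 1`, `k < d` or `k > dim A - d` (`IsBallComm`); (b) `E` has no anti-automorphism which is the
identity on its centre, and `k < d` or `k > m dim A - d` or the centre is imaginary quadratic
(`IsBallNoAnti`); (c) `A` is simple with signature `(dim A - 1, 1)` for an imaginary quadratic field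
`ℚ(J)` in `E`, and `m = 1`, or `dim A` is even and `E = ℚ(J)`. -/
def AbVar.IsBallRange (A : AbVar) (m k : ℕ) : Prop :=
  (m = 1 ∧ A.IsBallComm k) ∨ A.IsBallNoAnti m k ∨
    ∃ (d : ℚ) (J : A.H1 → A.H1), A.IsPicardType d J ∧ (m = 1 ∨ (Even A.g ∧
      ∀ f, A.IsEnd f → ∃ a b : ℚ, ∀ v, f v = (a : ℂ) • v + (b : ℂ) • J v))

end Pool.Agent.GPC
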