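import Pool.Agent.BSM.All
import Pool.Agent.Helper8.B.Main2
import Pool.Agent.KT2.St2
import Pool.Agent.Helper64.BQ.Types

/-!
Abelian varieties of ball type: the union of the cases.
-/

namespace Pool.Agent.Helper64.BQ

open Pool.Agent.GPC NumberField
open Pool.Agent.Helper83.Ball (one)

/-- from classes on `A` to forms on the first power -/
lemma iff_one (A : AbVar) (k : ℕ)
    (H : ∀ α : A.Class (2 * k), A.IsGrothendieckClass k α → A.IsDivisorialClass k α)
    (α : Form (fun _ : Unit => A) (fun _ => 1) (2 * k)) :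
    IsGrothendieck (fun _ : Unit => A) (fun _ => 1) k α ↔
      IsDivisorial (fun _ : Unit => A) (fun _ => 1) k α := by
  refine ⟨fun hα => ?_, Pool.Agent.Helper7.isGrothendieck_of_isDivisorial _ _ k α⟩
  obtain ⟨m, c, f, ω, hf, hω, hs⟩ := H (α.compLinearMap (one A).toLinearMap)
    ⟨fun v hv => hα.1 (fun r => one A (v r)) fun r _ _ => hv r,
      fun v hv => hα.2 (fun r => one A (v r)) fun r _ _ => hv r⟩
  refine ⟨m, c, fun j v => ω j fun r => (one A).symm (v r), fun j => ?_, fun v => ?_⟩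
  · refine ⟨fun _ => (), fun a u => f j a ((one A).symm u), fun a => ?_, fun v => ?_⟩
    · exact ⟨⟨fun u v => by
          show f j a ((one A).symm (u + v)) = f j a ((one A).symm u) + f j a ((one A).symm v)
          rw [map_add, (hf j a).linear.map_add],
        fun c u => by
          show f j a ((one A).symm (c • u)) = c • f j a ((one A).symm u)
          rw [map_smul, (hf j a).linear.map_smul]⟩,
        fun v hv => (hf j a).betti _ (hv () 0), fun v hv => (hf j a).deRham _ (hv () 0),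
        fun v hv => (hf j a).hodge _ (hv () 0)⟩
    · exact hω j fun r => (one A).symm (v r)
  · rw [← hs]
    show α v = α fun r => one A ((one A).symm (v r))
    simp only [LinearEquiv.apply_symm_apply]

theorem picard (A : AbVar) (d : ℚ) (J : A.H1 → A.H1) (h : A.IsPicardType d J) (m k : ℕ)
    (hm : m = 1 ∨ (Even A.g ∧
      ∀ f, A.IsEnd f → ∃ a b : ℚ, ∀ v, f v = (a : ℂ) • v + (b : ℂ) • J v))
    (α : Form (fun _ : Unit => A) (fun _ => m) (2 * k)) :
    IsGrothendieck (fun _ : Unit => A) (fun _ => m) k α ↔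
      IsDivisorial (fun _ : Unit => A) (fun _ => m) k α := by
  obtain ⟨hA, hn, hd, hJ, hJ2, z, hz, hf⟩ := h
  exact BSM.All.FinS_ A d (hJ.linear.mk' J) z hA hn hd hJ hJ2 hz hf m k hm α

theorem comm (A : AbVar) (k : ℕ) (h : A.IsBallComm k) (α : A.Class (2 * k))
    (hα : A.IsGrothendieckClass k α) : A.IsDivisorialClass k α := by
  obtain ⟨K, i1, i2, i3, n, ρ, C, hn, hK, hk⟩ := h
  have hag : ∀ σ τ : K →+* ℂ, A.AgreeCen ρ σ τ → σ = τ := by
    intro σ τ h
    refine RingHom.ext fun x => h x fun f hf v => ?_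
    obtain ⟨y, hy⟩ := hK f hf
    rw [hy, hy, ← C.mul, ← C.mul, mul_comm]
  obtain ⟨σ₀, h1, h2⟩ := C.signature
  refine (Pool.Agent.Ball.main_ball2 A K n ρ ⟨C.one, C.mul, C.add, C.rank, C.endo, C.rosati,
    C.centralizer, σ₀, h1 σ₀ fun _ _ => rfl, fun σ h3 h4 => h2 σ (fun h => h3 (hag _ _ h))
      fun h => h4 (hag _ _ h)⟩ hn k hk α).mp hα

theorem noAnti (hT : KT2.St_FinT) (hD : KT2.St_FinD) (A : AbVar) (m k : ℕ)
    (h : A.IsBallNoAnti m k) (α : Form (fun _ : Unit => A) (fun _ => m) (2 * k)) :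
    IsGrothendieck (fun _ : Unit => A) (fun _ => m) k α ↔
      IsDivisorial (fun _ : Unit => A) (fun _ => m) k α := by
  obtain ⟨K, i1, i2, i3, n, ρ, C, hn, hN, h | h | h⟩ := h
  · exact hT A m k ⟨K, i1, i2, i3, n, ρ, C, hn, hN, Or.inl h⟩ α
  · exact hD A m k ⟨K, i1, i2, i3, n, ρ, C, hn, hN, by rwa [mul_left_comm]⟩ α
  · exact hT A m k ⟨K, i1, i2, i3, n, ρ, C, hn, hN, Or.inr h⟩ α

/-- the union -/
theorem main (hT : KT2.St_FinT) (hD : KT2.St_FinD) (A : AbVar) (m k : ℕ) (h : A.IsBallRange m k)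
    (α : Form (fun _ : Unit => A) (fun _ => m) (2 * k)) :
    IsGrothendieck (fun _ : Unit => A) (fun _ => m) k α ↔
      IsDivisorial (fun _ : Unit => A) (fun _ => m) k α := by
  rcases h with ⟨rfl, h⟩ | h | ⟨d, J, h, hm⟩
  · exact iff_one A k (fun β hβ => comm A k h β hβ) α
  · exact noAnti hT hD A m k h α
  · exact picard A d J h m k hm α

end Pool.Agent.Helper64.BQ
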